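import Mathlib
import Pool.Agent.N993.WV.Hat

/-!
# WV/TRANS: transfer of diagrams to a part of the relators (for helper993)
-/

set_option autoImplicit false

namespace Pool.Agent.N402.WV

open Pool.Agent.N993.WT (SphericalDiagram DR)

theorem t_TRANS : Pool.Agent.N993.WV.S_TRANS := by
  intro X R X' R' r r' φ ι hφ hι hr hDR D hcell hred
  choose e' he' using hcell
  have hlen : ∀ d, (r (D.cell d)).length = (r' (e' d)).length := by
    intro d
    rw [he' d, hr, List.length_map]
  have hex : ∀ d, ∃ y : X' × Bool, D.lett d = (φ y.1, y.2) ∧
      (r' (e' d))[D.pos d]? = some (if D.sgn d then y else Pool.Agent.N993.WT.flip y) := by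
    intro d
    have h1 := D.lett_eq d
    rw [he' d, hr, List.getElem?_map, Option.map_eq_some_iff] at h1
    obtain ⟨y, hy, hyd⟩ := h1
    rcases hs : D.sgn d with _ | _
    · refine ⟨Pool.Agent.N993.WT.flip y, ?_, ?_⟩
      · rw [hs] at hyd
        simp only [Bool.false_eq_true, if_false, Pool.Agent.N993.WT.flip] at hyd
        have h2 := congrArg Prod.fst hyd
        have h3 := congrArg Prod.snd hyd
        simp only at h2 h3
        apply Prod.ext
        · exact h2.symm
        · simp only [Pool.Agent.N993.WT.flip, h3, Bool.not_not]
      · rw [hy]
        simp [Pool.Agent.N993.WT.flip]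
    · refine ⟨y, ?_, ?_⟩
      · rw [hs] at hyd
        simpa using hyd.symm
      · rw [hy]
        simp
  choose y hy1 hy2 using hex
  let D' : SphericalDiagram r' :=
    { D := D.D
      finD := D.finD
      nonemptyD := D.nonemptyD
      nxt := D.nxt
      opp := D.opp
      opp_ne := D.opp_ne
      opp_opp := D.opp_opp
      connected := D.connected
      euler := D.euler
      lett := y
      lett_opp := by
        intro d
        have h1 := D.lett_opp d
        rw [hy1, hy1] at h1
        simp only [Pool.Agent.N993.WT.flip] at h1
        have h2 := congrArg Prod.fst h1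
        have h3 := congrArg Prod.snd h1
        simp only at h2 h3
        exact Prod.ext (hφ h2) h3
      cell := e'
      sgn := D.sgn
      pos := D.pos
      face := by
        intro d
        rw [← hlen]
        exact D.face d
      cell_nxt := by
        intro d
        apply hι
        rw [← he', ← he']
        exact D.cell_nxt d
      sgn_nxt := D.sgn_nxt
      pos_nxt := by
        intro d
        rw [← hlen]
        exact D.pos_nxt d
      lett_eq := hy2 }
  refine hDR D' ?_
  rintro d ⟨h1, h2, h3⟩
  refine hred d ⟨?_, h2, h3⟩
  rw [he' (D.opp d), he' d]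
  exact congrArg ι h1

end Pool.Agent.N402.WV
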